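import Pool.Agent.Helper50.Tm.Goals

/-!
Packet TM-DIVL of MP_f619a5_ag: the sections through the identity component are `n`-divisible
modulo the kernel of the reduction if `n` is invertible in the residue field.
-/

open CategoryTheory AlgebraicGeometry Limits TensorProduct MonoidalCategory
open scoped Obj

namespace Pool.Agent.Helper9.Tm

open Pool.Agent.Helper50.Tm
open Pool.Agent.Helper40.Nm (specOver homGroup specialFibre)

section local_ring

variable {R : Type} [CommRing R] [IsLocalRing R] {G : Over (Spec (CommRingCat.of R))}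

theorem residue_closedPoint :
    Spec.map (CommRingCat.ofHom (algebraMap R (IsLocalRing.ResidueField R)))
      (IsLocalRing.closedPoint (IsLocalRing.ResidueField R)) = IsLocalRing.closedPoint R := by
  change PrimeSpectrum.comap (IsLocalRing.residue R) _ = _
  apply PrimeSpectrum.ext
  simp [IsLocalRing.closedPoint]

theorem cpt_mem (s : Pts G R) : cpt s ∈ specialFibre G := by
  have h : s.left ≫ G.hom = Spec.map (CommRingCat.ofHom (RingHom.id R)) := Over.w s
  have h2 : s.left ≫ G.hom = 𝟙 _ := by
    rw [h]
    exact Spec.map_id _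
  have h3 : (s.left ≫ G.hom) (IsLocalRing.closedPoint R) = IsLocalRing.closedPoint R := by
    rw [h2]
    rfl
  exact h3

theorem redk_left_closedPoint (s : Pts G R) :
    (redk s).left (IsLocalRing.closedPoint (IsLocalRing.ResidueField R)) = cpt s := by
  have h1 : (redk s).left =
      Spec.map (CommRingCat.ofHom (algebraMap R (IsLocalRing.ResidueField R))) ≫ s.left := rfl
  rw [h1]
  change s.left (Spec.map (CommRingCat.ofHom (algebraMap R (IsLocalRing.ResidueField R))) _) =
    s.left _
  rw [residue_closedPoint]

theorem sameComp_refl (s : Pts G R) : SameComp s s := mem_connectedComponentIn (cpt_mem s)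

theorem sameComp_symm {s s' : Pts G R} (h : SameComp s s') : SameComp s' s := by
  have h1 : connectedComponentIn (specialFibre G) (cpt s) =
      connectedComponentIn (specialFibre G) (cpt s') := connectedComponentIn_eq h
  change cpt s ∈ connectedComponentIn (specialFibre G) (cpt s')
  rw [← h1]
  exact mem_connectedComponentIn (cpt_mem s)

theorem range_spec_residue :
    Set.range (Spec.map (CommRingCat.ofHom (algebraMap R (IsLocalRing.ResidueField R)))) =
      {IsLocalRing.closedPoint R} := by
  ext x
  constructor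
  · rintro ⟨y, rfl⟩
    have : y = IsLocalRing.closedPoint (IsLocalRing.ResidueField R) :=
      Subsingleton.elim (α := PrimeSpectrum (IsLocalRing.ResidueField R)) _ _
    rw [this]
    exact residue_closedPoint
  · rintro rfl
    exact ⟨_, residue_closedPoint⟩

theorem range_fst :
    Set.range (pullback.fst G.hom
      (Spec.map (CommRingCat.ofHom (algebraMap R (IsLocalRing.ResidueField R))))) =
      specialFibre G := by
  rw [Scheme.Pullback.range_fst, range_spec_residue]
  rfl

instance isClosedImmersion_fst : IsClosedImmersion (pullback.fst G.hom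
      (Spec.map (CommRingCat.ofHom (algebraMap R (IsLocalRing.ResidueField R))))) := by
  have : IsClosedImmersion
      (Spec.map (CommRingCat.ofHom (algebraMap R (IsLocalRing.ResidueField R)))) :=
    IsClosedImmersion.spec_of_surjective _ IsLocalRing.residue_surjective
  infer_instance

end local_ring

theorem comp_powMap {k : Type} [CommRing k] {A : Type} [CommRing A] [Algebra k A]
    (Y : Over (Spec (CommRingCat.of k))) [GrpObj Y]
    (n : ℕ) (w : Pts Y A) : w ≫ powMap Y n = w ^ n := by
  rw [powMap]
  induction n with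
  | zero =>
    rw [pow_zero, pow_zero]
    exact MonObj.comp_one _
  | succ n ih =>
    rw [pow_succ, pow_succ]
    have := MonObj.comp_mul w ((𝟙 Y : Y ⟶ Y) ^ n) (𝟙 Y)
    rw [Category.comp_id] at this
    rw [← ih]
    exact this

theorem gDIVL (hNBH : NBH) (hLOC : LOC) (hCOMPG : COMPG) (hREDS : REDS) (hSTK : STK)
    (hOPN : OPN) : DIVL := by
  intro R _ _ _ _ _ G _ hG hcomm n hn s hs
  let k := IsLocalRing.ResidueField R
  let Gk := (bc R k).obj G
  let p : Gk.left ⟶ G.left := pullback.fst G.hom
      (Spec.map (CommRingCat.ofHom (algebraMap R (IsLocalRing.ResidueField R))))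
  have hp : IsClosedImmersion p := isClosedImmersion_fst
  have hprange : Set.range p = specialFibre G := range_fst
  have hft : LocallyOfFiniteType Gk.hom := by
    have h1 : LocallyOfFiniteType G.hom := inferInstance
    change LocallyOfFiniteType (pullback.snd _ _)
    infer_instance
  obtain ⟨V₀, hV₀1, -, hV₀2⟩ := hNBH R G hG ⊤ (cpt (1 : Pts G R)) trivial (cpt_mem _)
  -- points of `G` and of the special fibre
  have hpt : ∀ w : Pts Gk k, p (w.left (IsLocalRing.closedPoint k)) =
      ((bcEquiv (M := k) G).symm w).left (IsLocalRing.closedPoint k) := fun w => rfl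
  have hpt2 : ∀ r : Pts G k, p ((bcEquiv (M := k) G r).left (IsLocalRing.closedPoint k)) =
      r.left (IsLocalRing.closedPoint k) := by
    intro r
    rw [hpt, Equiv.symm_apply_apply]
  have hbone : bcEquiv (M := k) G (1 : Pts G k) = 1 := by
    have h := bcEquiv_mul (M := k) G (1 : Pts G k) 1
    rw [mul_one] at h
    exact (left_eq_mul.mp h)
  have hredone : redk (1 : Pts G R) = 1 := Pts.map_one _
  have hredmul : ∀ a b : Pts G R, redk (a * b) = redk a * redk b := fun a b => Pts.map_mul _ _ _
  have hredpow : ∀ (a : Pts G R) (m : ℕ), redk (a ^ m) = redk a ^ m := fun a m =>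
    map_pow (Pts.mapHom (G := G) (Algebra.ofId R (IsLocalRing.ResidueField R))) a m
  let U₀ : Gk.left.Opens := p ⁻¹ᵁ V₀
  let e : Gk.left := (1 : Pts Gk k).left (IsLocalRing.closedPoint k)
  have hpe : p e = cpt (1 : Pts G R) := by
    change p ((1 : Pts Gk k).left (IsLocalRing.closedPoint k)) = _
    rw [← hbone, hpt2, ← hredone]
    exact redk_left_closedPoint _
  have heU : e ∈ U₀ := by
    change p e ∈ V₀
    rw [hpe]
    exact hV₀1
  obtain ⟨V₁, hV₁ne, hV₁⟩ := hOPN k Gk Gk (powMap Gk n) hft hft e U₀ heU
    (hSTK k Gk hft n hn e rfl)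
  obtain ⟨V, hVo, hVV⟩ := (hp.isClosedEmbedding.isInducing.isOpen_iff).mp V₁.isOpen
  let V' : G.left.Opens := ⟨V, hVo⟩
  have hVne : ((V' : Set G.left) ∩ specialFibre G).Nonempty := by
    obtain ⟨y, hy⟩ := hV₁ne
    refine ⟨p y, ?_, ?_⟩
    · have : y ∈ p ⁻¹' V := by rw [hVV]; exact hy
      exact this
    · rw [← hprange]
      exact ⟨y, rfl⟩
  obtain ⟨hR1, -, -⟩ := hREDS R G hG
  have hCi : ∀ a : Pts G R, SameComp 1 a → SameComp 1 a⁻¹ := by
    intro a ha
    have h1 := hCOMPG R G 1 a a⁻¹ a⁻¹ ha (sameComp_refl _)
    rw [one_mul, mul_inv_cancel] at h1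
    exact sameComp_symm h1
  let Q : Subgroup (Pts G R) :=
    { carrier := {s | ∃ t : Pts G R, SameComp 1 t ∧ redk (t ^ n) = redk s}
      one_mem' := ⟨1, sameComp_refl _, by rw [one_pow]⟩
      mul_mem' := by
        rintro a b ⟨t, ht, hta⟩ ⟨u, hu, hub⟩
        refine ⟨t * u, ?_, ?_⟩
        · have := hCOMPG R G 1 t 1 u ht hu
          rwa [one_mul] at this
        · have hc : Commute t u := hcomm t u
          rw [hc.mul_pow, hredmul, hredmul, hta, hub]
      inv_mem' := by
        rintro a ⟨t, ht, hta⟩
        refine ⟨t⁻¹, hCi t ht, ?_⟩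
        rw [inv_pow]
        have h1 : ∀ b : Pts G R, redk b⁻¹ = (redk b)⁻¹ := fun b =>
          map_inv (Pts.mapHom (G := G) (Algebra.ofId R (IsLocalRing.ResidueField R))) b
        rw [h1, h1, hta] }
  have hQn : Q.Normal := by
    constructor
    intro a ha g
    rw [hcomm g a, mul_assoc, mul_inv_cancel, mul_one]
    exact ha
  have hQV : ∀ s : Pts G R, cpt s ∈ V' → (QuotientGroup.mk' Q) s = 1 := by
    intro s hs
    rw [QuotientGroup.mk'_apply, QuotientGroup.eq_one_iff]
    obtain ⟨w, hwU, hw⟩ := hV₁ (bcEquiv (M := k) G (redk s)) (by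
      have h1 : (bcEquiv (M := k) G (redk s)).left (IsLocalRing.closedPoint k) ∈ p ⁻¹' V := by
        change p _ ∈ V
        rw [hpt2]
        have h2 := redk_left_closedPoint s
        rw [h2]
        exact hs
      rw [hVV] at h1
      exact h1)
    rw [comp_powMap] at hw
    obtain ⟨t, ht⟩ := hR1 ((bcEquiv (M := k) G).symm w)
    refine ⟨t, ?_, ?_⟩
    · have h1 : cpt t = p (w.left (IsLocalRing.closedPoint k)) := by
        rw [hpt, ← ht]
        exact (redk_left_closedPoint t).symm
      have h2 : cpt t ∈ (V₀ : Set G.left) ∩ specialFibre G := by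
        refine ⟨?_, cpt_mem t⟩
        rw [h1]
        exact hwU
      have h3 := hV₀2 h2
      have h4 : ((⊤ : G.left.Opens) : Set G.left) ∩ specialFibre G = specialFibre G :=
        Set.univ_inter _
      rw [h4] at h3
      exact h3
    · have hbpow : ∀ (r : Pts G k) (m : ℕ), bcEquiv (M := k) G (r ^ m) =
          bcEquiv (M := k) G r ^ m := by
        intro r m
        induction m with
        | zero => rw [pow_zero, pow_zero]; exact hbone
        | succ m ih => rw [pow_succ, pow_succ, bcEquiv_mul, ih]
      apply (bcEquiv (M := k) G).injective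
      rw [hredpow, hbpow, ht, Equiv.apply_symm_apply]
      exact hw
  have hfin := hLOC R G hG (Pts G R ⧸ Q) (QuotientGroup.mk' Q) V' 1 hVne hQV 1 s hs
  rw [map_one] at hfin
  have h5 : s ∈ Q := by
    rw [← QuotientGroup.eq_one_iff]
    exact hfin.symm
  exact h5

end Pool.Agent.Helper9.Tm
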